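import Pool.Agent.Helper13_FK.Stmts

/-!
# Squad FK, module LB: squares of primes of medium size
-/

namespace Pool.Agent.FK.H25

open Polynomial Finset

theorem lb (l2 : L2Stmt) : LbStmt := by
  intro d a C₁ c δ hd ha hδ hδ1
  refine ⟨δ, hδ, 3 * d + |(a : ℝ)| ^ (1 / δ), ?_⟩
  intro H Φ Δ hH hLP
  have hHr : (1 : ℝ) ≤ (H : ℝ) := by exact_mod_cast hH
  have hH0 : (0 : ℝ) < (H : ℝ) := by linarith
  have hpow1 : (1 : ℝ) ≤ (H : ℝ) ^ (1 - δ) := Real.one_le_rpow hHr (by linarith)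
  have hapos : (0 : ℝ) < |(a : ℝ)| := by
    rw [abs_pos]; exact_mod_cast ha
  have hapow : (0 : ℝ) ≤ |(a : ℝ)| ^ (1 / δ) := Real.rpow_nonneg hapos.le _
  have hd0 : (0 : ℝ) ≤ (d : ℝ) := Nat.cast_nonneg _
  set S : Set ℕ := {t : ℕ | t < H ∧ ∃ p : ℕ, p.Prime ∧ (H : ℝ) ^ δ < p ∧
    (p : ℝ) ≤ (H : ℝ) ^ (1 - δ) ∧ ¬ (p : ℤ) ∣ Δ ∧ (p : ℤ) ^ 2 ∣ Φ.eval (t : ℤ)} with hS
  by_cases hsm : (H : ℝ) ^ δ < |(a : ℝ)|
  · -- small `H`
    have h1 : (S.ncard : ℝ) ≤ (H : ℝ) := by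
      have hsub : S ⊆ ((Finset.range H : Finset ℕ) : Set ℕ) := by
        intro t ht
        simpa using ht.1
      have := Set.ncard_le_ncard hsub (Finset.finite_toSet _)
      rw [Set.ncard_coe_finset, Finset.card_range] at this
      exact_mod_cast this
    have h2 : (H : ℝ) ≤ |(a : ℝ)| ^ (1 / δ) := by
      have : ((H : ℝ) ^ δ) ^ (1 / δ) ≤ |(a : ℝ)| ^ (1 / δ) :=
        Real.rpow_le_rpow (Real.rpow_nonneg hH0.le _) hsm.le (by positivity)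
      rwa [← Real.rpow_mul hH0.le, mul_one_div_cancel hδ.ne', Real.rpow_one] at this
    calc (S.ncard : ℝ) ≤ (3 * d + |(a : ℝ)| ^ (1 / δ)) * 1 := by linarith
      _ ≤ _ := by
        apply mul_le_mul_of_nonneg_left hpow1
        positivity
  · push Not at hsm
    set k : ℕ := ⌊(H : ℝ) ^ δ⌋₊ with hk
    set N : ℕ := ⌊(H : ℝ) ^ (1 - δ)⌋₊ with hN
    set P : Finset ℕ := (Finset.Ioo k (N + 1)).filter (fun p => p.Prime ∧ ¬ (p : ℤ) ∣ Δ ∧
      (H : ℝ) ^ δ < p) with hP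
    have hsub : S ⊆ ⋃ p ∈ P, {t : ℕ | t < H ∧ ((p ^ 2 : ℕ) : ℤ) ∣ Φ.eval (t : ℤ)} := by
      intro t ht
      obtain ⟨htH, p, hp, hp1, hp2, hp3, hp4⟩ := ht
      simp only [Set.mem_iUnion]
      refine ⟨p, ?_, htH, by exact_mod_cast hp4⟩
      rw [hP, Finset.mem_filter, Finset.mem_Ioo]
      refine ⟨⟨?_, ?_⟩, hp, hp3, hp1⟩
      · rw [hk]
        exact (Nat.floor_lt (Real.rpow_nonneg hH0.le _)).2 hp1
      · rw [Nat.lt_succ_iff, hN]
        exact Nat.le_floor hp2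
    have hfin : ∀ p : ℕ, {t : ℕ | t < H ∧ ((p ^ 2 : ℕ) : ℤ) ∣ Φ.eval (t : ℤ)}.Finite := by
      intro p
      apply (Finset.range H).finite_toSet.subset
      intro t ht
      simpa using ht.1
    have hcard : S.ncard ≤ ∑ p ∈ P,
        {t : ℕ | t < H ∧ ((p ^ 2 : ℕ) : ℤ) ∣ Φ.eval (t : ℤ)}.ncard := by
      refine (Set.ncard_le_ncard hsub ?_).trans ?_
      · exact Set.Finite.biUnion P.finite_toSet (fun p _ => hfin p)
      · exact Finset.set_ncard_biUnion_le P _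
    have hterm : ∀ p ∈ P, ({t : ℕ | t < H ∧ ((p ^ 2 : ℕ) : ℤ) ∣ Φ.eval (t : ℤ)}.ncard : ℝ) ≤
        d * ((H : ℝ) * ((p : ℝ) ^ 2)⁻¹ + 1) := by
      intro p hp
      rw [hP, Finset.mem_filter, Finset.mem_Ioo] at hp
      obtain ⟨⟨_, _⟩, hpp, hpD, hpH⟩ := hp
      have hpa : ¬ (p : ℤ) ∣ a := by
        intro h
        have h1 := Int.le_of_dvd (by positivity : (0 : ℤ) < |a|) ((dvd_abs _ _).2 h)
        have h2 : (p : ℝ) ≤ |(a : ℝ)| := by exact_mod_cast h1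
        linarith
      have hcop : (p ^ 2).Coprime (Φ.leadingCoeff * Δ).natAbs := by
        apply Nat.Coprime.pow_left
        rw [Nat.Prime.coprime_iff_not_dvd hpp]
        intro h
        have h3 : (p : ℤ) ∣ Φ.leadingCoeff * Δ := Int.natCast_dvd.2 h
        rw [hLP.lc] at h3
        rcases (Nat.prime_iff_prime_int.1 hpp).dvd_or_dvd h3 with h4 | h4
        · exact hpa h4
        · exact hpD h4
      have h5 := l2 Φ Δ hLP.bez (by rw [hLP.deg]; exact hd) (p ^ 2) H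
        (Nat.one_le_pow _ _ hpp.pos) hcop
      rw [Nat.primeFactors_prime_pow two_ne_zero hpp, Finset.card_singleton, pow_one,
        hLP.deg] at h5
      have h6 : ({t : ℕ | t < H ∧ ((p ^ 2 : ℕ) : ℤ) ∣ Φ.eval (t : ℤ)}.ncard : ℝ) ≤
          (d : ℝ) * (((H / p ^ 2 : ℕ) : ℝ) + 1) := by
        exact_mod_cast h5
      refine h6.trans (mul_le_mul_of_nonneg_left ?_ hd0)
      have h7 : ((H / p ^ 2 : ℕ) : ℝ) ≤ (H : ℝ) / ((p ^ 2 : ℕ) : ℝ) := Nat.cast_div_le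
      have h8 : (H : ℝ) / ((p ^ 2 : ℕ) : ℝ) = (H : ℝ) * ((p : ℝ) ^ 2)⁻¹ := by
        push_cast
        rw [div_eq_mul_inv]
      linarith
    have hPcard : ((P.card : ℕ) : ℝ) ≤ (H : ℝ) ^ (1 - δ) := by
      have h1 : P.card ≤ N := by
        refine (Finset.card_filter_le _ _).trans ?_
        rw [Nat.card_Ioo]
        omega
      have h2 : (N : ℝ) ≤ (H : ℝ) ^ (1 - δ) := Nat.floor_le (by positivity)
      have h3 : ((P.card : ℕ) : ℝ) ≤ (N : ℝ) := by exact_mod_cast h1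
      linarith
    have hsum : ∑ p ∈ P, ((p : ℝ) ^ 2)⁻¹ ≤ 2 / (H : ℝ) ^ δ := by
      have h1 : ∑ p ∈ P, ((p : ℝ) ^ 2)⁻¹ ≤ ∑ p ∈ Finset.Ioo k (N + 1), ((p : ℝ) ^ 2)⁻¹ := by
        apply Finset.sum_le_sum_of_subset_of_nonneg (Finset.filter_subset _ _)
        intro i _ _
        positivity
      have h2 := sum_Ioo_inv_sq_le (α := ℝ) k (N + 1)
      have h3 : (H : ℝ) ^ δ ≤ (k : ℝ) + 1 := (Nat.lt_floor_add_one _).le
      have h4 : (2 : ℝ) / ((k : ℝ) + 1) ≤ 2 / (H : ℝ) ^ δ := by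
        apply div_le_div_of_nonneg_left (by norm_num) (by positivity) h3
      linarith
    have hfinal : (S.ncard : ℝ) ≤ 3 * d * (H : ℝ) ^ (1 - δ) := by
      calc (S.ncard : ℝ) ≤ ((∑ p ∈ P,
            {t : ℕ | t < H ∧ ((p ^ 2 : ℕ) : ℤ) ∣ Φ.eval (t : ℤ)}.ncard : ℕ) : ℝ) := by
            exact_mod_cast hcard
        _ = ∑ p ∈ P, ({t : ℕ | t < H ∧ ((p ^ 2 : ℕ) : ℤ) ∣ Φ.eval (t : ℤ)}.ncard : ℝ) := by
            push_cast; rfl
        _ ≤ ∑ p ∈ P, d * ((H : ℝ) * ((p : ℝ) ^ 2)⁻¹ + 1) := Finset.sum_le_sum hterm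
        _ = d * ((H : ℝ) * ∑ p ∈ P, ((p : ℝ) ^ 2)⁻¹ + P.card) := by
            rw [← Finset.mul_sum, Finset.sum_add_distrib, ← Finset.mul_sum]
            simp
        _ ≤ d * ((H : ℝ) * (2 / (H : ℝ) ^ δ) + (H : ℝ) ^ (1 - δ)) := by
            apply mul_le_mul_of_nonneg_left _ hd0
            have := mul_le_mul_of_nonneg_left hsum hH0.le
            linarith
        _ = 3 * d * (H : ℝ) ^ (1 - δ) := by
            have h9 : (H : ℝ) * (2 / (H : ℝ) ^ δ) = 2 * (H : ℝ) ^ (1 - δ) := by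
              rw [Real.rpow_sub hH0, Real.rpow_one]
              ring
            rw [h9]
            ring
    refine hfinal.trans ?_
    apply mul_le_mul_of_nonneg_right _ (by positivity)
    linarith

end Pool.Agent.FK.H25
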